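import Pool.Agent.K1H41.OV.One
import Pool.Agent.K1H41.OV.Am
import Pool.Agent.K1H41.OV.T_CR
import Pool.Agent.K1H41.OV.T_MP
import Pool.Agent.K1H41.OV.T_LH
import Pool.Agent.K1H41.OV.T_PL
import Pool.Agent.K1H41.OV.T_EXT
import Pool.Agent.K1H41.OV.T_REGI
import Pool.Agent.K1H41.OV.T_HOM
import Pool.Agent.K1H41.OV.T_TAY
import Pool.Agent.K1H41.OV.T_CONT
import Pool.Agent.K1H41.OV.T_STR
import Pool.Agent.K1H41.OV.T_REGB
import Pool.Agent.K1H78.OV.VV
import Pool.Agent.K1H41.OV.T_PSI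
import Pool.Agent.K1H78.OV.Crit
import Pool.Agent.K1H41.OV.T_EIG
import Pool.Agent.K1H41.OV.T_TWO
import Pool.Agent.K1H41.OV.T_OPN
import Pool.Agent.K1H41.OV.T_SPH
import Pool.Agent.K1H41.OV.T_MAX
import Pool.Agent.K1H41.OV.T_IFT
import Pool.Agent.K1H41.OV.T_SUP

/-!
# Ovaloids with a unique six-normal point

An ovaloid in Euclidean 3-space with exactly one six-normal point is a round sphere.

The definitions (`IsOvaloid`, `IsFoot`, `SixNormal`) are in `Pool/Agent/K1H41/OV/Basic.lean`.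
-/

namespace Pool.Agent.Results.MP_997161_gt.UniqueSixNormalPoint

open Pool.Agent.K1H41.OV Pool.Agent.K1H78.OV

/-- **Theorem.** If an ovaloid has exactly one six-normal point, it is a round sphere. -/
theorem result (S : Set E3) (hS : IsOvaloid S) (h : ∃! p, SixNormal S p) :
    ∃ (c : E3) (r : ℝ), 0 < r ∧ S = Metric.sphere c r := by
  have hTay : S_TAY := t_TAY
  have hHom : S_HOM := t_HOM
  have hPol : S_POL := t_POL hHom
  have hCont : S_CONT := t_CONT hHom hTay
  have hVV : S_VV := t_VV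
  have hPL : S_PL := t_PL t_CR t_MP t_LO t_HI
  have hEig : S_EIG := t_EIG hHom
  have hOne : S_ONE := t_ONE hHom hPL t_EXT t_REGI hCont (t_STR hHom hTay hPol)
    (t_REGB hHom hTay hPol hCont t_BOX) hVV (t_PSI hHom hVV) (t_CRIT hVV)
  have hAm : S_AM := t_AM hOne (t_TWO hHom hEig) hEig t_OPN (t_CU hHom) (t_SPH hHom)
  exact t_FIN hAm (t_SUP t_MAX t_IFT) S hS h

end Pool.Agent.Results.MP_997161_gt.UniqueSixNormalPoint
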